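import Pool.Agent.W533.LP.Stm
import Pool.Agent.W533.LP.Stm3

/-!
# Mean and variance identities for the stationary last passage time
-/

namespace Pool.Agent.W179.LP

open MeasureTheory ProbabilityTheory Pool.Agent.W533.LP
open scoped ENNReal

/-! ### the shift identity -/

theorem fiber_dec {Ω : Type} [MeasurableSpace Ω] {μ : Measure Ω} {X : Ω → ℕ} (hX : Measurable X)
    (f : ℕ → Ω → ℝ≥0∞) :
    ∫⁻ ω, f (X ω) ω ∂μ = ∑' k, ∫⁻ ω in {ω | X ω = k}, f k ω ∂μ := by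
  have hm : ∀ k, MeasurableSet {ω | X ω = k} := fun k => hX (measurableSet_singleton k)
  have h1 : (⋃ k, {ω | X ω = k}) = Set.univ := by
    ext ω; simp
  rw [← setLIntegral_univ, ← h1, lintegral_iUnion hm]
  · congr 1
    funext k
    apply setLIntegral_congr_fun (hm k)
    intro ω hω
    have : X ω = k := hω
    simp only [this]
  · intro i j hij
    rw [Function.onFun, Set.disjoint_left]
    intro ω h1 h2
    have e1 : X ω = i := h1
    have e2 : X ω = j := h2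
    exact hij (e1.symm.trans e2)

theorem shift_l {Ω : Type} {m1 m2 mΩ : MeasurableSpace Ω} {μ : Measure Ω}
    (h1 : m1 ≤ mΩ) (h2 : m2 ≤ mΩ) (hind : Indep m1 m2 μ) (X : Ω → ℕ) (hX : Measurable[m1] X)
    (a : ℝ≥0∞) (hlaw : ∀ k, a * μ {ω | X ω = k} = μ {ω | X ω = k + 1})
    (F : ℕ → Ω → ℝ≥0∞) (hF : ∀ k, Measurable[m2] (F k)) (hF0 : ∀ ω, F 0 ω = 0) :
    a * ∫⁻ ω, F (X ω + 1) ω ∂μ = ∫⁻ ω, F (X ω) ω ∂μ := by
  have hX' : Measurable X := fun s hs => h1 _ (hX hs)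
  have hm : ∀ k, MeasurableSet {ω | X ω = k} := fun k => hX' (measurableSet_singleton k)
  have hm1 : ∀ k, MeasurableSet[m1] {ω | X ω = k} := fun k => hX (measurableSet_singleton k)
  have key : ∀ j k, ∫⁻ ω in {ω | X ω = k}, F j ω ∂μ = μ {ω | X ω = k} * ∫⁻ ω, F j ω ∂μ := by
    intro j k
    rw [← lintegral_indicator (hm k)]
    have e1 : ∀ ω, ({ω | X ω = k} : Set Ω).indicator (F j) ω =
        ({ω | X ω = k} : Set Ω).indicator (fun _ => (1 : ℝ≥0∞)) ω * F j ω := by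
      intro ω
      by_cases h : ω ∈ ({ω | X ω = k} : Set Ω)
      · rw [Set.indicator_of_mem h, Set.indicator_of_mem h, one_mul]
      · rw [Set.indicator_of_notMem h, Set.indicator_of_notMem h, zero_mul]
    rw [lintegral_congr e1, lintegral_mul_eq_lintegral_mul_lintegral_of_independent_measurableSpace
      h1 h2 hind ((@measurable_const _ _ _ m1 _).indicator (hm1 k)) (hF j),
      lintegral_indicator (hm k)]
    simp
  rw [fiber_dec hX' (fun k => F (k + 1)), ← ENNReal.tsum_mul_left, fiber_dec hX' F,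
    tsum_eq_zero_add' (f := fun k => ∫⁻ ω in {ω | X ω = k}, F k ω ∂μ) ENNReal.summable]
  have e0 : ∫⁻ ω in {ω | X ω = 0}, F 0 ω ∂μ = 0 := by
    rw [lintegral_congr (fun ω => hF0 ω)]
    simp
  rw [e0, zero_add]
  congr 1
  funext k
  rw [key, key, ← mul_assoc, hlaw]

/-! ### geometric families -/

theorem GeoFam.pre {Ω ι ι' : Type} [MeasurableSpace Ω] {μ : Measure Ω} {p : ι → ℝ}
    {X : ι → Ω → ℕ} (h : GeoFam μ p X) (g : ι' → ι) (hg : Function.Injective g) :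
    GeoFam μ (fun i => p (g i)) (fun i => X (g i)) :=
  ⟨h.prob, fun i => h.pos _, fun i => h.meas _, h.indep.precomp hg, fun i k => h.law _ k⟩

theorem one_var (hPM : PMom) {Ω ι : Type} [MeasurableSpace Ω] {μ : Measure Ω} {p : ι → ℝ}
    {X : ι → Ω → ℕ} (h : GeoFam μ p X) (i : ι) :
    MemLp (fun ω => (X i ω : ℝ)) 4 μ ∧ ∫ ω, (X i ω : ℝ) ∂μ = mean (p i) := by
  obtain ⟨C, -, hC⟩ := hPM (p i) (h.pos i).2
  obtain ⟨h1, h2, -, -⟩ := hC μ (p i) 1 (fun _ : Fin 1 => X i) le_rfl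
    (GeoFam.pre h (fun _ : Fin 1 => i) (fun _ _ _ => Subsingleton.elim _ _))
  simp only [Fin.sum_univ_one, Nat.cast_one, one_mul] at h1 h2
  exact ⟨h1, h2⟩

theorem sum_var (hPM : PMom) {Ω ι : Type} [MeasurableSpace Ω] {μ : Measure Ω} {p : ι → ℝ}
    {X : ι → Ω → ℕ} (h : GeoFam μ p X) {b : ℝ} (n : ℕ) (g : Fin n → ι) (hg : Function.Injective g)
    (hb : ∀ i, p (g i) = b) (hb1 : b < 1) :
    MemLp (fun ω => ∑ i, (X (g i) ω : ℝ)) 4 μ ∧
    ∫ ω, ∑ i, (X (g i) ω : ℝ) ∂μ = n * mean b ∧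
    variance (fun ω => ∑ i, (X (g i) ω : ℝ)) μ = n * vari b := by
  obtain ⟨C, -, hC⟩ := hPM b hb1
  have h0 := GeoFam.pre h g hg
  have e : (fun i => p (g i)) = (fun _ => b) := funext hb
  rw [e] at h0
  obtain ⟨h1, h2, h3, -⟩ := hC μ b n (fun i => X (g i)) le_rfl h0
  exact ⟨h1, h2, h3⟩

/-! ### deterministic facts -/

theorem G_row (I J : ℕ → ℕ) (W : ℕ → ℕ → ℕ) (m : ℕ) : G I J W m 0 = ps I m := by
  induction m with
  | zero => simp [G, ps]
  | succ m ih => rw [G, ih]; simp [ps, Finset.sum_range_succ]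

theorem G_col (I J : ℕ → ℕ) (W : ℕ → ℕ → ℕ) (n : ℕ) : G I J W 0 n = ps J n := by
  induction n with
  | zero => simp [G, ps]
  | succ m ih => rw [G, ih]; simp [ps, Finset.sum_range_succ]

theorem G_le (I J : ℕ → ℕ) (W : ℕ → ℕ → ℕ) : ∀ m n : ℕ,
    G I J W m n ≤ ps I m + ps J n + ∑ i ∈ Finset.range m, ∑ j ∈ Finset.range n, W i j := by
  intro m
  induction m with
  | zero => intro n; rw [G_col]; simp [ps]
  | succ m ih =>
    intro n
    induction n with
    | zero => rw [G_row]; simp [ps]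
    | succ n ihn =>
      have h1 := ih (n + 1)
      rw [G]
      have e1 : ∑ i ∈ Finset.range (m + 1), ∑ j ∈ Finset.range (n + 1), W i j =
          ∑ i ∈ Finset.range m, ∑ j ∈ Finset.range (n + 1), W i j +
            (∑ j ∈ Finset.range n, W m j + W m n) := by
        rw [Finset.sum_range_succ, Finset.sum_range_succ _ n]
      have e2 : ∑ i ∈ Finset.range (m + 1), ∑ j ∈ Finset.range n, W i j =
          ∑ i ∈ Finset.range m, ∑ j ∈ Finset.range n, W i j + ∑ j ∈ Finset.range n, W m j := by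
        rw [Finset.sum_range_succ]
      have e3 : ∑ i ∈ Finset.range m, ∑ j ∈ Finset.range n, W i j ≤
          ∑ i ∈ Finset.range m, ∑ j ∈ Finset.range (n + 1), W i j := by
        apply Finset.sum_le_sum
        intro i _
        rw [Finset.sum_range_succ]
        exact Nat.le_add_right _ _
      have e4 : ps I (m + 1) = ps I m + I m := by simp [ps, Finset.sum_range_succ]
      have e5 : ps J (n + 1) = ps J n + J n := by simp [ps, Finset.sum_range_succ]
      rw [e1, e4, e5]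
      rw [e2, e4] at ihn
      rw [e5] at h1
      have : max (G I J W m (n + 1)) (G I J W (m + 1) n) ≤
        ps I m + I m + (ps J n + J n) + (∑ i ∈ Finset.range m, ∑ j ∈ Finset.range (n + 1), W i j +
            ∑ j ∈ Finset.range n, W m j) := by
        apply max_le <;> omega
      omega

theorem tele_row (hA : AMeas) {Ω : Type} (I J : ℕ → Ω → ℕ) (W : ℕ → ℕ → Ω → ℕ) (m n : ℕ) (ω : Ω) :
    (Gr I J W m n ω : ℝ) = ∑ j ∈ Finset.range n, (J j ω : ℝ) + ∑ i : Fin m, (Ninc I J W n i ω : ℝ) := by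
  induction m with
  | zero =>
    rw [Gr, G_col]
    simp [ps]
  | succ m ih =>
    rw [Fin.sum_univ_castSucc]
    have h1 : Gr I J W m n ω ≤ Gr I J W (m + 1) n ω := (hA.2.2 _ _ _ _ _).1
    have h2 : (Ninc I J W n (Fin.last m) ω : ℝ) = Gr I J W (m + 1) n ω - Gr I J W m n ω := by
      rw [Ninc, Fin.val_last, Nat.cast_sub h1]
    rw [h2]
    simp only [Fin.val_castSucc]
    rw [← add_assoc, ← ih]
    ring

theorem tele_col (hA : AMeas) {Ω : Type} (I J : ℕ → Ω → ℕ) (W : ℕ → ℕ → Ω → ℕ) (m n : ℕ) (ω : Ω) :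
    (Gr I J W m n ω : ℝ) = ∑ i ∈ Finset.range m, (I i ω : ℝ) + ∑ j : Fin n, (Einc I J W m j ω : ℝ) := by
  induction n with
  | zero =>
    rw [Gr, G_row]
    simp [ps]
  | succ n ih =>
    rw [Fin.sum_univ_castSucc]
    have h1 : Gr I J W m n ω ≤ Gr I J W m (n + 1) ω := (hA.2.2 _ _ _ _ _).2
    have h2 : (Einc I J W m (Fin.last n) ω : ℝ) = Gr I J W m (n + 1) ω - Gr I J W m n ω := by
      rw [Einc, Fin.val_last, Nat.cast_sub h1]
    rw [h2]
    simp only [Fin.val_castSucc]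
    rw [← add_assoc, ← ih]
    ring

/-- every coordinate except the horizontal weight `u` -/
def TT (u : ℕ) : Set (ℕ ⊕ ℕ ⊕ (ℕ × ℕ) ⊕ Empty) := {Sum.inl u}ᶜ

theorem cov_id (hA : AMeas) (hS : DSlope) {Ω : Type} [mΩ : MeasurableSpace Ω] {μ : Measure Ω}
    {q a : ℝ} {I J : ℕ → Ω → ℕ} {W : ℕ → ℕ → Ω → ℕ} (h : Sys0 μ q a I J W) (ha : a < 1) (u m n : ℕ)
    (hI : MemLp (fun ω => (I u ω : ℝ)) 4 μ)
    (hG : MemLp (fun ω => (Gr I J W m n ω : ℝ)) 4 μ) :
    ∫ ω, (I u ω : ℝ) * (Gr I J W m n ω : ℝ) ∂μ - mean a * ∫ ω, (Gr I J W m n ω : ℝ) ∂μ =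
      mean a * ∫ ω in Hs I J W u m n, ((I u ω : ℝ) + 1) ∂μ := by
  have hprob : IsProbabilityMeasure μ := h.prob
  have hIm : ∀ i, Measurable (I i) := fun i => h.meas (Sum.inl i)
  have hJm : ∀ i, Measurable (J i) := fun i => h.meas (Sum.inr (Sum.inl i))
  have hWm : ∀ i j, Measurable (W i j) := fun i j => h.meas (Sum.inr (Sum.inr (Sum.inl (i, j))))
  have ha0 : 0 ≤ a := (h.pos (Sum.inl u)).1
  -- independence
  let ms : (ℕ ⊕ ℕ ⊕ (ℕ × ℕ) ⊕ Empty) → MeasurableSpace Ω := fun i =>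
    MeasurableSpace.comap (fam I J W (fun _ _ => 0) i) inferInstance
  have hle : ∀ i, ms i ≤ mΩ := fun i => (h.meas i).comap_le
  have hind0 : iIndep ms μ := h.indep.iIndep
  have hind := indep_iSup_of_disjoint hle hind0
    (S := {Sum.inl u}) (T := TT u) (by rw [TT]; exact disjoint_compl_right)
  have hm1 : (⨆ i ∈ ({Sum.inl u} : Set (ℕ ⊕ ℕ ⊕ (ℕ × ℕ) ⊕ Empty)), ms i) ≤ mΩ :=
    iSup₂_le fun i _ => hle i
  have hm2 : (⨆ i ∈ TT u, ms i) ≤ mΩ := iSup₂_le fun i _ => hle i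
  have hXm : Measurable[⨆ i ∈ ({Sum.inl u} : Set (ℕ ⊕ ℕ ⊕ (ℕ × ℕ) ⊕ Empty)), ms i] (I u) := by
    have : Measurable[ms (Sum.inl u)] (I u) := comap_measurable _
    exact this.mono (le_iSup₂ (f := fun i (_ : i ∈ ({Sum.inl u} : Set
      (ℕ ⊕ ℕ ⊕ (ℕ × ℕ) ⊕ Empty))) => ms i) (Sum.inl u) rfl) le_rfl
  have hot : ∀ i ∈ TT u, Measurable[⨆ i ∈ TT u, ms i] (fam I J W (fun _ _ => 0) i) := by
    intro i hi
    have : Measurable[ms i] (fam I J W (fun _ _ => 0) i) := comap_measurable _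
    exact this.mono (le_iSup₂ (f := fun i (_ : i ∈ TT u) => ms i) i hi) le_rfl
  -- the functions
  let Ik : ℕ → ℕ → Ω → ℕ := fun k i ω => if i = u then k else I i ω
  obtain ⟨-, hA2, -⟩ := hA
  have hGk : ∀ k, Measurable[⨆ i ∈ TT u, ms i] (Gr (Ik k) J W m n) := by
    intro k
    refine @hA2 Ω (⨆ i ∈ TT u, ms i) (Ik k) J W ?_ ?_ ?_ m n
    · intro i
      by_cases hi : i = u
      · have e : Ik k i = fun _ => k := by funext ω; simp [Ik, hi]
        rw [e]
        exact @measurable_const _ _ _ (⨆ i ∈ TT u, ms i) _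
      · have e : Ik k i = I i := by funext ω; simp [Ik, hi]
        rw [e]
        exact hot (Sum.inl i) (by simpa [TT] using hi)
    · intro j
      exact hot (Sum.inr (Sum.inl j)) (by simp [TT])
    · intro i j
      exact hot (Sum.inr (Sum.inr (Sum.inl (i, j)))) (by simp [TT])
  let F : ℕ → Ω → ℝ≥0∞ := fun k ω => (k : ℝ≥0∞) * (Gr (Ik k) J W m n ω : ℝ≥0∞)
  have hFm : ∀ k, Measurable[⨆ i ∈ TT u, ms i] (F k) := by
    intro k
    exact (measurable_of_countable (fun n : ℕ => (k : ℝ≥0∞) * (n : ℝ≥0∞))).comp (hGk k)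
  have hlaw : ∀ k, ENNReal.ofReal a * μ {ω | I u ω = k} = μ {ω | I u ω = k + 1} := by
    intro k
    have h1 := h.law (Sum.inl u) k
    have h2 := h.law (Sum.inl u) (k + 1)
    have e1 : μ {ω | I u ω = k} = ENNReal.ofReal ((1 - a) * a ^ k) := by
      rw [← ofReal_measureReal]
      congr 1
    have e2 : μ {ω | I u ω = k + 1} = ENNReal.ofReal ((1 - a) * a ^ (k + 1)) := by
      rw [← ofReal_measureReal]
      congr 1
    rw [e1, e2, ← ENNReal.ofReal_mul ha0]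
    congr 1
    ring
  have hshift := shift_l hm1 hm2 hind (I u) hXm (ENNReal.ofReal a) hlaw F hFm (by
    intro ω; simp [F])
  -- the bumped system
  let Ib : ℕ → Ω → ℕ := fun i ω => bump (fun i => I i ω) u 1 i
  have hIb : ∀ i, Measurable (Ib i) := by
    intro i
    by_cases hi : i = u
    · have e : Ib i = fun ω => I i ω + 1 := by funext ω; simp [Ib, bump, hi]
      rw [e]
      exact (hIm i).add_const 1
    · have e : Ib i = I i := by funext ω; simp [Ib, bump, hi]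
      rw [e]; exact hIm i
  have hGm : Measurable (Gr I J W m n) := hA2 I J W hIm hJm hWm m n
  have hGbm : Measurable (Gr Ib J W m n) := hA2 Ib J W hIb hJm hWm m n
  have hHs : MeasurableSet (Hs I J W u m n) :=
    measurableSet_eq_fun hGbm (hGm.add_const 1)
  have eX : ∀ ω, F (I u ω) ω = ((I u ω * Gr I J W m n ω : ℕ) : ℝ≥0∞) := by
    intro ω
    have : Gr (Ik (I u ω)) J W m n ω = Gr I J W m n ω := by
      unfold Gr
      congr 1
      funext i
      by_cases hi : i = u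
      · simp [Ik, hi]
      · simp [Ik, hi]
    simp [F, this]
  have eX1 : ∀ ω, F (I u ω + 1) ω = (((I u ω + 1) * Gr Ib J W m n ω : ℕ) : ℝ≥0∞) := by
    intro ω
    have : Gr (Ik (I u ω + 1)) J W m n ω = Gr Ib J W m n ω := by
      unfold Gr
      congr 1
      funext i
      by_cases hi : i = u
      · simp [Ik, Ib, bump, hi]
      · simp [Ik, Ib, bump, hi]
    simp [F, this]
  have r0 : a * ∫ ω, (((I u ω + 1) * Gr Ib J W m n ω : ℕ) : ℝ) ∂μ =
      ∫ ω, ((I u ω * Gr I J W m n ω : ℕ) : ℝ) ∂μ := by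
    have c1 : ∀ f : Ω → ℕ, Measurable f →
        ∫ ω, (f ω : ℝ) ∂μ = (∫⁻ ω, (f ω : ℝ≥0∞) ∂μ).toReal := by
      intro f hf
      rw [← integral_toReal]
      · simp
      · exact ((measurable_of_countable (fun n : ℕ => (n : ℝ≥0∞))).comp hf).aemeasurable
      · exact Filter.Eventually.of_forall fun ω => ENNReal.natCast_lt_top _
    rw [c1 (fun ω => (I u ω + 1) * Gr Ib J W m n ω) (((hIm u).add_const 1).mul hGbm),
      c1 (fun ω => I u ω * Gr I J W m n ω) ((hIm u).mul hGm)]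
    rw [← lintegral_congr eX, ← lintegral_congr eX1, ← hshift, ENNReal.toReal_mul,
      ENNReal.toReal_ofReal ha0]
  have hb : ∀ ω, (Gr Ib J W m n ω : ℝ) = Gr I J W m n ω +
      (Hs I J W u m n).indicator (fun _ => (1 : ℝ)) ω := by
    intro ω
    have h1 := (hS (fun i => I i ω) (fun j => J j ω) (fun i j => W i j ω) u m n).1 1
    by_cases hω : ω ∈ Hs I J W u m n
    · rw [Set.indicator_of_mem hω]
      have : Gr Ib J W m n ω = Gr I J W m n ω + 1 := hω
      rw [this]; push_cast; ring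
    · rw [Set.indicator_of_notMem hω, add_zero]
      have h2 : Gr Ib J W m n ω ≠ Gr I J W m n ω + 1 := hω
      have h3 : Gr I J W m n ω ≤ Gr Ib J W m n ω := h1.1
      have h4 : Gr Ib J W m n ω ≤ Gr I J W m n ω + 1 := h1.2
      have : Gr Ib J W m n ω = Gr I J W m n ω := by omega
      rw [this]
  have hI2 := hI.mono_exponent (p := 2) (by norm_num)
  have hG2 := hG.mono_exponent (p := 2) (by norm_num)
  have i1 : Integrable (fun ω => (I u ω : ℝ) * (Gr I J W m n ω : ℝ)) μ := hI2.integrable_mul hG2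
  have i2 : Integrable (fun ω => (Gr I J W m n ω : ℝ)) μ := hG2.integrable (by norm_num)
  have i3 : Integrable (fun ω => (I u ω : ℝ) + 1) μ :=
    (hI2.integrable (by norm_num)).add (integrable_const 1)
  have e1 : ∀ ω, (((I u ω + 1) * Gr Ib J W m n ω : ℕ) : ℝ) =
      ((I u ω : ℝ) * (Gr I J W m n ω : ℝ) + (Gr I J W m n ω : ℝ)) +
        (Hs I J W u m n).indicator (fun ω => (I u ω : ℝ) + 1) ω := by
    intro ω
    rw [Nat.cast_mul, hb ω]
    by_cases hω : ω ∈ Hs I J W u m n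
    · rw [Set.indicator_of_mem hω, Set.indicator_of_mem hω]; push_cast; ring
    · rw [Set.indicator_of_notMem hω, Set.indicator_of_notMem hω]; push_cast; ring
  have i12 : Integrable (fun ω => (I u ω : ℝ) * (Gr I J W m n ω : ℝ) + (Gr I J W m n ω : ℝ)) μ :=
    i1.add i2
  have i4 : Integrable ((Hs I J W u m n).indicator (fun ω => (I u ω : ℝ) + 1)) μ :=
    i3.indicator hHs
  rw [integral_congr_ae (Filter.Eventually.of_forall e1), integral_add i12 i4,
    integral_add i1 i2, integral_indicator hHs] at r0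
  have e2 : ∫ ω, ((I u ω * Gr I J W m n ω : ℕ) : ℝ) ∂μ = ∫ ω, (I u ω : ℝ) * (Gr I J W m n ω : ℝ) ∂μ := by
    congr 1
    funext ω
    push_cast
    rfl
  rw [e2] at r0
  unfold mean
  have h1a : (1 - a) ≠ 0 := by linarith
  field_simp
  linarith

theorem prod_sum (hPM : PMom) {Ω ι : Type} [MeasurableSpace Ω] {μ : Measure Ω} {p : ι → ℝ}
    {X : ι → Ω → ℕ} (h : GeoFam μ p X) (m n : ℕ) (g₁ : Fin m → ι) (g₂ : Fin n → ι)
    (hne : ∀ i j, g₁ i ≠ g₂ j) :
    ∫ ω, (∑ i, (X (g₁ i) ω : ℝ)) * (∑ j, (X (g₂ j) ω : ℝ)) ∂μ =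
      (∫ ω, ∑ i, (X (g₁ i) ω : ℝ) ∂μ) * ∫ ω, ∑ j, (X (g₂ j) ω : ℝ) ∂μ := by
  have hprob : IsProbabilityMeasure μ := h.prob
  have hm2 : ∀ i, MemLp (fun ω => (X i ω : ℝ)) 2 μ := fun i =>
    (one_var hPM h i).1.mono_exponent (by norm_num)
  have hint : ∀ i, Integrable (fun ω => (X i ω : ℝ)) μ := fun i => (hm2 i).integrable (by norm_num)
  have hprod : ∀ i j, Integrable (fun ω => (X i ω : ℝ) * (X j ω : ℝ)) μ := fun i j =>
    (hm2 i).integrable_mul (hm2 j)
  rw [integral_finsetSum _ (fun i _ => hint _), integral_finsetSum _ (fun i _ => hint _),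
    Finset.sum_mul_sum]
  have e : ∀ ω, (∑ i, (X (g₁ i) ω : ℝ)) * (∑ j, (X (g₂ j) ω : ℝ)) =
      ∑ i, ∑ j, (X (g₁ i) ω : ℝ) * (X (g₂ j) ω : ℝ) := fun ω => Finset.sum_mul_sum _ _ _ _
  rw [integral_congr_ae (Filter.Eventually.of_forall e), integral_finsetSum _ (fun i _ =>
    integrable_finsetSum _ (fun j _ => hprod _ _))]
  apply Finset.sum_congr rfl
  intro i _
  rw [integral_finsetSum _ (fun j _ => hprod _ _)]
  apply Finset.sum_congr rfl
  intro j _
  have h1 : IndepFun (X (g₁ i)) (X (g₂ j)) μ := h.indep.indepFun (hne i j)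
  have h2 : IndepFun (fun ω => (X (g₁ i) ω : ℝ)) (fun ω => (X (g₂ j) ω : ℝ)) μ :=
    h1.comp (measurable_of_countable (fun n : ℕ => (n : ℝ)))
      (measurable_of_countable (fun n : ℕ => (n : ℝ)))
  exact h2.integral_fun_mul_eq_mul_integral (hint _).aestronglyMeasurable
    (hint _).aestronglyMeasurable

theorem memG (hA : AMeas) (hPM : PMom) {Ω : Type} [MeasurableSpace Ω] {μ : Measure Ω}
    {q a : ℝ} {I J : ℕ → Ω → ℕ} {W : ℕ → ℕ → Ω → ℕ} (h : Sys0 μ q a I J W) (m n : ℕ) :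
    MemLp (fun ω => (Gr I J W m n ω : ℝ)) 4 μ := by
  have hI : ∀ i, MemLp (fun ω => (I i ω : ℝ)) 4 μ := fun i => (one_var hPM h (Sum.inl i)).1
  have hJ : ∀ i, MemLp (fun ω => (J i ω : ℝ)) 4 μ := fun i =>
    (one_var hPM h (Sum.inr (Sum.inl i))).1
  have hW : ∀ i j, MemLp (fun ω => (W i j ω : ℝ)) 4 μ := fun i j =>
    (one_var hPM h (Sum.inr (Sum.inr (Sum.inl (i, j))))).1
  have hIm : ∀ i, Measurable (I i) := fun i => h.meas (Sum.inl i)
  have hJm : ∀ i, Measurable (J i) := fun i => h.meas (Sum.inr (Sum.inl i))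
  have hWm : ∀ i j, Measurable (W i j) := fun i j => h.meas (Sum.inr (Sum.inr (Sum.inl (i, j))))
  have hGm : Measurable (Gr I J W m n) := hA.2.1 I J W hIm hJm hWm m n
  have h1 : MemLp (fun ω => (∑ i ∈ Finset.range m, (I i ω : ℝ)) + (∑ j ∈ Finset.range n, (J j ω : ℝ)) +
      ∑ i ∈ Finset.range m, ∑ j ∈ Finset.range n, (W i j ω : ℝ)) 4 μ :=
    ((memLp_finsetSum _ (fun i _ => hI i)).add (memLp_finsetSum _ (fun i _ => hJ i))).add
      (memLp_finsetSum _ (fun i _ => memLp_finsetSum _ (fun j _ => hW i j)))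
  refine h1.mono ((measurable_of_countable (fun n : ℕ => (n : ℝ))).comp hGm).aestronglyMeasurable
    (Filter.Eventually.of_forall fun ω => ?_)
  have h2 := G_le (fun i => I i ω) (fun j => J j ω) (fun i j => W i j ω) m n
  have h3 : (Gr I J W m n ω : ℝ) ≤ (∑ i ∈ Finset.range m, (I i ω : ℝ)) +
      (∑ j ∈ Finset.range n, (J j ω : ℝ)) +
      ∑ i ∈ Finset.range m, ∑ j ∈ Finset.range n, (W i j ω : ℝ) := by
    have h4 : ((Gr I J W m n ω : ℕ) : ℝ) ≤ ((ps (fun i => I i ω) m + ps (fun j => J j ω) n +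
      ∑ i ∈ Finset.range m, ∑ j ∈ Finset.range n, W i j ω : ℕ) : ℝ) := by exact_mod_cast h2
    refine h4.trans (le_of_eq ?_)
    unfold ps
    push_cast
    rfl
  rw [Real.norm_of_nonneg (Nat.cast_nonneg _), Real.norm_of_nonneg ((Nat.cast_nonneg _).trans h3)]
  exact h3

theorem half (hA : AMeas) (hS : DSlope) (hPM : PMom) (hPB : PBurke) {Ω : Type} [MeasurableSpace Ω]
    {μ : Measure Ω} {q a : ℝ} {I J : ℕ → Ω → ℕ} {W : ℕ → ℕ → Ω → ℕ} (hq : 0 < q) (hqa : q < a)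
    (ha : a < 1) (h : Sys0 μ q a I J W) (m n : ℕ) :
    ∫ ω, (Gr I J W m n ω : ℝ) ∂μ = m * mean a + n * mean (q / a) ∧
    variance (fun ω => (Gr I J W m n ω : ℝ)) μ = n * vari (q / a) - m * vari a
      + 2 * mean a * ∑ i ∈ Finset.range m, ∫ ω in Hs I J W i m n, ((I i ω : ℝ) + 1) ∂μ := by
  have hprob : IsProbabilityMeasure μ := h.prob
  have ha0 : 0 < a := hq.trans hqa
  have hb1 : q / a < 1 := by rw [div_lt_one ha0]; exact hqa
  have hG4 := memG hA hPM h m n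
  have hI4 : ∀ i, MemLp (fun ω => (I i ω : ℝ)) 4 μ := fun i => (one_var hPM h (Sum.inl i)).1
  have hB := hPB μ q a I J W _ _ hq hqa ha h m n
  -- the four sums
  obtain ⟨hS4, hS1, -⟩ := sum_var hPM h (b := a) m (fun i => Sum.inl (i : ℕ)) (by
    intro i j hij; simpa [Fin.ext_iff] using hij) (fun i => rfl) ha
  obtain ⟨hV4, hV1, hV2⟩ := sum_var hPM h (b := q / a) n (fun i => Sum.inr (Sum.inl (i : ℕ))) (by
    intro i j hij; simpa [Fin.ext_iff] using hij) (fun i => rfl) hb1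
  obtain ⟨hN4, hN1, hN2⟩ := sum_var hPM hB (b := a) m (fun i => Sum.inl i) (by
    intro i j hij; simpa using hij) (fun i => rfl) ha
  obtain ⟨hE4, hE1, -⟩ := sum_var hPM hB (b := q / a) n (fun i => Sum.inr (Sum.inl i)) (by
    intro i j hij; simpa using hij) (fun i => rfl) hb1
  have pSV := prod_sum hPM h m n (fun i => Sum.inl (i : ℕ)) (fun i => Sum.inr (Sum.inl (i : ℕ)))
    (fun i j => by simp)
  have pNE := prod_sum hPM hB m n (fun i => Sum.inl i) (fun i => Sum.inr (Sum.inl i))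
    (fun i j => by simp)
  simp only [fam, Sum.elim_inl, Sum.elim_inr] at hS4 hS1 hV4 hV1 hV2 hN4 hN1 hN2 hE4 hE1 pSV pNE
  obtain ⟨S, hSdef⟩ : ∃ S : Ω → ℝ, S = fun ω => ∑ i : Fin m, (I i ω : ℝ) := ⟨_, rfl⟩
  obtain ⟨V, hVdef⟩ : ∃ V : Ω → ℝ, V = fun ω => ∑ i : Fin n, (J i ω : ℝ) := ⟨_, rfl⟩
  obtain ⟨N, hNdef⟩ : ∃ N : Ω → ℝ, N = fun ω => ∑ i : Fin m, (Ninc I J W n i ω : ℝ) := ⟨_, rfl⟩
  obtain ⟨E, hEdef⟩ : ∃ E : Ω → ℝ, E = fun ω => ∑ i : Fin n, (Einc I J W m i ω : ℝ) := ⟨_, rfl⟩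
  obtain ⟨Γ, hΓdef⟩ : ∃ Γ : Ω → ℝ, Γ = fun ω => (Gr I J W m n ω : ℝ) := ⟨_, rfl⟩
  have dN : ∀ ω, Γ ω = V ω + N ω := by
    intro ω
    rw [hΓdef, hVdef, hNdef]
    show (Gr I J W m n ω : ℝ) = _
    rw [tele_row hA, Finset.sum_range]
  have dE : ∀ ω, Γ ω = S ω + E ω := by
    intro ω
    rw [hΓdef, hSdef, hEdef]
    show (Gr I J W m n ω : ℝ) = _
    rw [tele_col hA, Finset.sum_range]
  have hSG : ∑ i ∈ Finset.range m, ∫ ω, (I i ω : ℝ) * (Gr I J W m n ω : ℝ) ∂μ = ∫ ω, S ω * Γ ω ∂μ := by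
    rw [← integral_finsetSum]
    · congr 1
      funext ω
      rw [hSdef, hΓdef, Finset.sum_range, Finset.sum_mul]
    · intro i _
      exact ((hI4 i).mono_exponent (p := 2) (by norm_num)).integrable_mul
        (hG4.mono_exponent (p := 2) (by norm_num))
  have hcov : ∑ i ∈ Finset.range m, (∫ ω, (I i ω : ℝ) * (Gr I J W m n ω : ℝ) ∂μ -
      mean a * ∫ ω, (Gr I J W m n ω : ℝ) ∂μ) =
      mean a * ∑ i ∈ Finset.range m, ∫ ω in Hs I J W i m n, ((I i ω : ℝ) + 1) ∂μ := by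
    rw [Finset.mul_sum]
    exact Finset.sum_congr rfl fun i _ => cov_id hA hS h ha i m n (hI4 i) hG4
  rw [Finset.sum_sub_distrib, hSG, Finset.sum_const, Finset.card_range, nsmul_eq_mul] at hcov
  rw [← hSdef] at hS4 
  rw [← hVdef] at hV4 hV2
  rw [← hNdef] at hN4 hN2
  rw [← hEdef] at hE4
  rw [← hΓdef] at hG4
  have kS : ∫ ω, S ω ∂μ = m * mean a := by rw [hSdef]; exact hS1
  have kV : ∫ ω, V ω ∂μ = n * mean (q / a) := by rw [hVdef]; exact hV1
  have kN : ∫ ω, N ω ∂μ = m * mean a := by rw [hNdef]; exact hN1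
  have kE : ∫ ω, E ω ∂μ = n * mean (q / a) := by rw [hEdef]; exact hE1
  have kSV : ∫ ω, S ω * V ω ∂μ = (m * mean a) * (n * mean (q / a)) := by
    rw [← kS, ← kV, hSdef, hVdef]; exact pSV
  have kNE : ∫ ω, N ω * E ω ∂μ = (m * mean a) * (n * mean (q / a)) := by
    rw [← kN, ← kE, hNdef, hEdef]; exact pNE
  have hS2 := hS4.mono_exponent (p := 2) (by norm_num)
  have hV2' := hV4.mono_exponent (p := 2) (by norm_num)
  have hN2' := hN4.mono_exponent (p := 2) (by norm_num)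
  have hE2 := hE4.mono_exponent (p := 2) (by norm_num)
  have hG2 := hG4.mono_exponent (p := 2) (by norm_num)
  have kG : ∫ ω, Γ ω ∂μ = m * mean a + n * mean (q / a) := by
    rw [integral_congr_ae (Filter.Eventually.of_forall dE), integral_add
      (hS2.integrable (by norm_num)) (hE2.integrable (by norm_num)), kS, kE]
  have hΓ : (fun ω => (Gr I J W m n ω : ℝ)) = Γ := hΓdef.symm
  have hΓi : ∫ ω, (Gr I J W m n ω : ℝ) ∂μ = ∫ ω, Γ ω ∂μ := by rw [hΓdef]
  rw [hΓi] at hcov ⊢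
  rw [hΓ]
  refine ⟨kG, ?_⟩
  rw [variance_eq_sub hG2]
  rw [variance_eq_sub hV2'] at hV2
  rw [variance_eq_sub hN2'] at hN2
  have iV : Integrable (fun ω => V ω * V ω) μ := hV2'.integrable_mul hV2'
  have iN : Integrable (fun ω => N ω * N ω) μ := hN2'.integrable_mul hN2'
  have iSG : Integrable (fun ω => S ω * Γ ω) μ := hS2.integrable_mul hG2
  have iSV : Integrable (fun ω => S ω * V ω) μ := hS2.integrable_mul hV2'
  have iNE : Integrable (fun ω => N ω * E ω) μ := hN2'.integrable_mul hE2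
  have pw : ∀ ω, Γ ω * Γ ω = V ω * V ω - N ω * N ω + 2 * (S ω * Γ ω - S ω * V ω + N ω * E ω) := by
    intro ω
    have e1 : N ω = Γ ω - V ω := by rw [dN]; ring
    have e2 : E ω = Γ ω - S ω := by rw [dE]; ring
    rw [e1, e2]; ring
  have hGG : ∫ ω, Γ ω * Γ ω ∂μ = ∫ ω, V ω * V ω ∂μ - ∫ ω, N ω * N ω ∂μ +
      2 * (∫ ω, S ω * Γ ω ∂μ - ∫ ω, S ω * V ω ∂μ + ∫ ω, N ω * E ω ∂μ) := by
    rw [integral_congr_ae (Filter.Eventually.of_forall pw)]
    have j1 : Integrable (fun ω => V ω * V ω - N ω * N ω) μ := iV.sub iN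
    have j2 : Integrable (fun ω => S ω * Γ ω - S ω * V ω) μ := iSG.sub iSV
    have j3 : Integrable (fun ω => S ω * Γ ω - S ω * V ω + N ω * E ω) μ := j2.add iNE
    rw [integral_add j1 (j3.const_mul 2), integral_sub iV iN, integral_const_mul,
      integral_add j2 iNE, integral_sub iSG iSV]
  have sq : ∀ f : Ω → ℝ, ∫ ω, (f ^ 2) ω ∂μ = ∫ ω, f ω * f ω ∂μ := by
    intro f
    congr 1
    funext ω
    rw [Pi.pow_apply, pow_two]
  rw [sq, hGG, kG, kSV, kNE]
  rw [sq, kV] at hV2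
  rw [sq, kN] at hN2
  rw [kG] at hcov
  linear_combination hV2 - hN2 + 2 * hcov

theorem pVarId (hA : AMeas) (hO : AOps) (hT : DTransp) (hS : DSlope) (hPM : PMom) (hPB : PBurke) :
    PVarId := by
  intro Ω _ μ q a I J W hq hqa ha h m n
  have ha0 : 0 < a := hq.trans hqa
  obtain ⟨h1, h2⟩ := half hA hS hPM hPB hq hqa ha h m n
  refine ⟨memG hA hPM h m n, h1, h2, ?_⟩
  have h' := (hO μ q).2.1 a I J W hq hqa ha h
  have hq1 : q / a < 1 := by rw [div_lt_one ha0]; exact hqa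
  have hq2 : q < q / a := by rw [lt_div_iff₀ ha0]; nlinarith
  have h3 := (half hA hS hPM hPB hq hq2 hq1 h' n m).2
  have e1 : q / (q / a) = a := by field_simp
  have e2 : ∀ ω, Gr J I (fun i j => W j i) n m ω = Gr I J W m n ω := by
    intro ω
    exact (hT (fun i => I i ω) (fun j => J j ω) (fun i j => W i j ω) m n).symm
  have e3 : ∀ i, Hs J I (fun i j => W j i) i n m = Vs I J W i m n := by
    intro i
    ext ω
    show G _ _ _ _ _ = Gr J I (fun i j => W j i) n m ω + 1 ↔ G _ _ _ _ _ = _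
    rw [e2, hT (fun i => I i ω) (bump (fun j => J j ω) i 1) (fun i j => W i j ω) m n]
  rw [e1] at h3
  simp only [e2, e3] at h3
  exact h3

end Pool.Agent.W179.LP
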